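import Pool.Agent.H24.SCG3.Stmts6
import Pool.Agent.H24.SCG2.Base3

/-! Project SCG3, row ENC: noncommuting conjugates. -/

namespace Pool.Agent.H38.SCG3

open Pool.SCG Matrix

variable {F : Type} [Field F]

/-- `SL(3,F)` moves a nonzero vector out of a hyperplane -/
theorem exists_out {u ψ : Fin 3 → F} (hu : u ≠ 0) (hψ : ψ ≠ 0) :
    ∃ P : SL3 F, ψ ⬝ᵥ ((P : M3 F) *ᵥ u) ≠ 0 := by
  by_cases h0 : ψ ⬝ᵥ u ≠ 0
  · exact ⟨1, by simpa using h0⟩
  push Not at h0
  obtain ⟨i, hi⟩ : ∃ i, ψ i ≠ 0 := by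
    by_contra hno
    push Not at hno
    exact hψ (funext hno)
  obtain ⟨j, hj⟩ : ∃ j, u j ≠ 0 := by
    by_contra hno
    push Not at hno
    exact hu (funext hno)
  have key : ∃ i j : Fin 3, i ≠ j ∧ ψ i ≠ 0 ∧ u j ≠ 0 := by
    by_contra hno
    push Not at hno
    have hij : i = j := by
      by_contra hne
      exact hj (hno i j hne hi)
    subst hij
    have h1 : ∀ k, k ≠ i → ψ k * u k = 0 := by
      intro k hk
      rw [hno i k (Ne.symm hk) hi, mul_zero]
    have h2 : ψ ⬝ᵥ u = ψ i * u i := by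
      rw [dotProduct]
      exact Finset.sum_eq_single i (fun k _ hk => h1 k hk) (by simp)
    rw [h2] at h0
    exact (mul_ne_zero hi hj) h0
  obtain ⟨i, j, hne, hi, hj⟩ := key
  refine ⟨⟨transvection i j 1, det_transvection_of_ne i j hne 1⟩, ?_⟩
  show ψ ⬝ᵥ (transvection i j (1 : F) *ᵥ u) ≠ 0
  have : transvection i j (1 : F) *ᵥ u = u + Pi.single i (u j) := by
    rw [transvection, add_mulVec, one_mulVec]
    congr 1
    ext k
    simp only [Matrix.single, mulVec, dotProduct, Pi.single_apply, Matrix.of_apply]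
    by_cases hk : i = k
    · subst hk
      simp
    · rw [if_neg (Ne.symm hk)]
      simp [hk]
  rw [this, dotProduct_add, h0, zero_add, dotProduct_single]
  exact mul_ne_zero hi hj

/-- the quadratic form of a symmetric matrix in characteristic two is the square of a linear
form -/
theorem quad_sq (h2 : (2 : F) = 0) {S : M3 F} (hS : S.transpose = S) {l : Fin 3 → F}
    (hl : ∀ i, l i ^ 2 = S i i) (w : Fin 3 → F) : w ⬝ᵥ (S *ᵥ w) = (l ⬝ᵥ w) ^ 2 := by
  have e10 : S 1 0 = S 0 1 := congrFun (congrFun hS 0) 1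
  have e20 : S 2 0 = S 0 2 := congrFun (congrFun hS 0) 2
  have e21 : S 2 1 = S 1 2 := congrFun (congrFun hS 1) 2
  simp only [dotProduct, mulVec, Fin.sum_univ_three]
  rw [e10, e20, e21, ← hl 0, ← hl 1, ← hl 2]
  linear_combination (w 0 * w 1 * S 0 1 + w 0 * w 2 * S 0 2 + w 1 * w 2 * S 1 2
    - l 0 * w 0 * l 1 * w 1 - l 0 * w 0 * l 2 * w 2 - l 1 * w 1 * l 2 * w 2) * h2

theorem exists_lin (h2 : (2 : F) = 0) (hsq : ∀ x : F, ∃ y : F, y ^ 2 = x) {S : M3 F}
    (hS : S.transpose = S) (hdet : S.det = 1) :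
    ∃ l : Fin 3 → F, l ≠ 0 ∧ ∀ w : Fin 3 → F, w ⬝ᵥ (S *ᵥ w) = (l ⬝ᵥ w) ^ 2 := by
  choose r hr using hsq
  refine ⟨fun i => r (S i i), ?_, fun w => quad_sq h2 hS (fun i => hr _) w⟩
  intro h0
  have hd : ∀ i, S i i = 0 := by
    intro i
    have := congrFun h0 i
    simp only [Pi.zero_apply] at this
    rw [← hr (S i i), this]
    ring
  have e10 : S 1 0 = S 0 1 := congrFun (congrFun hS 0) 1
  have e20 : S 2 0 = S 0 2 := congrFun (congrFun hS 0) 2
  have e21 : S 2 1 = S 1 2 := congrFun (congrFun hS 1) 2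
  rw [Matrix.det_fin_three, hd 0, hd 1, hd 2, e10, e20, e21] at hdet
  have : (1 : F) = 0 := by
    linear_combination -hdet + (S 0 1 * S 1 2 * S 0 2) * h2
  exact one_ne_zero this

theorem el_cj {x : Cor F} {u φ : Fin 3 → F} (hx : El x u φ) (Q : SL3 F) :
    El (cj Q⁻¹ x) ((Q : M3 F) *ᵥ u) (((Q⁻¹ : SL3 F) : M3 F).transpose *ᵥ φ) := by
  have hQ : ((Q⁻¹ : SL3 F) : M3 F) = adjugate (Q : M3 F) := Matrix.SpecialLinearGroup.coe_inv Q
  have hdet : (Q : M3 F).det = 1 := Q.2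
  have e1 : adjugate (Q : M3 F) * (Q : M3 F) = 1 := adj_mul_self hdet
  have e2 : (Q : M3 F) * adjugate (Q : M3 F) = 1 := mul_adj_self hdet
  have e3 : adjugate (adjugate (Q : M3 F)) = (Q : M3 F) := by
    apply adj_unique _ e1
    rw [← hQ]; exact (Q⁻¹).2
  refine ⟨?_, ?_, ?_, ?_⟩
  · intro h
    apply hx.u0
    have : adjugate (Q : M3 F) *ᵥ ((Q : M3 F) *ᵥ u) = u := by
      rw [mulVec_mulVec, e1, one_mulVec]
    rw [← this, h, mulVec_zero]
  · intro h
    apply hx.p0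
    have : (Q : M3 F).transpose *ᵥ ((adjugate (Q : M3 F)).transpose *ᵥ φ) = φ := by
      rw [mulVec_mulVec, ← transpose_mul, e1, transpose_one, one_mulVec]
    rw [hQ] at h
    rw [← this, h, mulVec_zero]
  · rw [hQ, mulVec_transpose, ← dotProduct_mulVec, mulVec_mulVec, e1, one_mulVec]
    exact hx.pu
  · have h1 := hx.is.cj_inner Q⁻¹
    have e : adjugate ((Q⁻¹ : SL3 F) : M3 F) * (1 + vecMulVec u φ) * ((Q⁻¹ : SL3 F) : M3 F) =
        1 + vecMulVec ((Q : M3 F) *ᵥ u) (((Q⁻¹ : SL3 F) : M3 F).transpose *ᵥ φ) := by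
      rw [hQ, e3, mul_add, mul_one, add_mul, e2, mul_vecMulVec, vecMulVec_mul, mulVec_transpose]
    rwa [e] at h1

theorem pl_cj {x : Cor F} {S : M3 F} (hx : Pl x S) (P : SL3 F) :
    Pl (cj P x) ((P : M3 F).transpose * S * (P : M3 F)) := by
  refine ⟨?_, hx.is.cj_outer P⟩
  rw [transpose_mul, transpose_mul, transpose_transpose, hx.sym, mul_assoc]

theorem quad_cj (S : M3 F) (P : SL3 F) (v : Fin 3 → F) :
    v ⬝ᵥ (((P : M3 F).transpose * S * (P : M3 F)) *ᵥ v) =
      ((P : M3 F) *ᵥ v) ⬝ᵥ (S *ᵥ ((P : M3 F) *ᵥ v)) := by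
  rw [← mulVec_mulVec, ← mulVec_mulVec, mulVec_transpose, dotProduct_comm, ← dotProduct_mulVec,
    dotProduct_comm]

/-- case elation, polarity -/
theorem el_pl (hEC2 : EC2Stmt) (h2 : (2 : F) = 0) (hsq : ∀ x : F, ∃ y : F, y ^ 2 = x)
    {x y : Cor F} {u φ : Fin 3 → F} {T : M3 F} (hx : El x u φ) (hy : Pl y T) :
    ∃ P : SL3 F, cj P x * y ≠ y * cj P x := by
  obtain ⟨l, hl, hq⟩ := exists_lin h2 hsq hy.sym hy.is.det
  obtain ⟨Q, hQ⟩ := exists_out hx.u0 hl
  refine ⟨Q⁻¹, ?_⟩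
  intro h
  have hE := el_cj hx Q
  obtain ⟨c, _, hc⟩ := (hEC2 F h2 _ _ _ _ _ hE hy).1 h
  have h1 := hq ((Q : M3 F) *ᵥ u)
  rw [hc, dotProduct_smul, dotProduct_comm, hE.pu, smul_zero] at h1
  exact hQ (pow_eq_zero_iff (by norm_num) |>.1 h1.symm)

theorem enc_cj (hEINV : EINVStmt) (hEC1 : EC1Stmt) (hEC2 : EC2Stmt) (hENF : ENFStmt)
    (h2 : (2 : F) = 0) (hsq : ∀ x : F, ∃ y : F, y ^ 2 = x) (x y : Cor F) (hx : Iv x)
    (hy : Iv y) : ∃ P : SL3 F, cj P x * y ≠ y * cj P x := by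
  rcases hEINV F h2 x hx with ⟨u, φ, hxE⟩ | ⟨S, hxP⟩
  · rcases hEINV F h2 y hy with ⟨v, ψ, hyE⟩ | ⟨T, hyP⟩
    · obtain ⟨Q, hQ⟩ := exists_out hxE.u0 hyE.p0
      refine ⟨Q⁻¹, ?_⟩
      intro h
      exact hQ ((hEC1 F _ _ _ _ _ _ (el_cj hxE Q) hyE).1 h).2
    · exact el_pl hEC2 h2 hsq hxE hyP
  · rcases hEINV F h2 y hy with ⟨v, ψ, hyE⟩ | ⟨T, hyP⟩
    · obtain ⟨l, hl, hq⟩ := exists_lin h2 hsq hxP.sym hxP.is.det
      obtain ⟨P, hP⟩ := exists_out hyE.u0 hl
      refine ⟨P, ?_⟩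
      intro h
      obtain ⟨c, _, hc⟩ := (hEC2 F h2 _ _ _ _ _ hyE (pl_cj hxP P)).1 h.symm
      have h1 := hq ((P : M3 F) *ᵥ v)
      rw [← quad_cj, hc, dotProduct_smul, dotProduct_comm, hyE.pu, smul_zero] at h1
      exact hP (pow_eq_zero_iff (by norm_num) |>.1 h1.symm)
    · by_contra hno
      push Not at hno
      set c : Fin 3 → F := ![1, 1, 0] with hc
      have hcc : c ⬝ᵥ c = 0 := by
        rw [hc]
        simp only [dotProduct, Fin.sum_univ_three]
        simp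
        linear_combination h2
      have hS1 : (1 + vecMulVec c c).transpose = 1 + vecMulVec c c := by
        rw [transpose_add, transpose_one, transpose_vecMulVec]
      have hd1 : (1 + vecMulVec c c).det = 1 := by
        rw [hc, Matrix.det_fin_three]
        simp
        linear_combination h2
      obtain ⟨P0, hP0⟩ := hENF F h2 hsq S hxP.sym hxP.is.det
      obtain ⟨P1, hP1⟩ := hENF F h2 hsq _ hS1 hd1
      have h0 : Is (cj P0 x) true (1 : M3 F) := by
        have := hxP.is.cj_outer P0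
        rwa [hP0] at this
      have h1 : Is (cj (P0 * P1⁻¹) x) true (1 + vecMulVec c c) := by
        have h3 := hxP.is.cj_outer (P0 * P1⁻¹)
        have hQ : ((P1⁻¹ : SL3 F) : M3 F) = adjugate (P1 : M3 F) :=
          Matrix.SpecialLinearGroup.coe_inv P1
        have e2 : (P1 : M3 F) * adjugate (P1 : M3 F) = 1 := mul_adj_self P1.2
        have e : ((P0 * P1⁻¹ : SL3 F) : M3 F).transpose * S * ((P0 * P1⁻¹ : SL3 F) : M3 F) =
            1 + vecMulVec c c := by
          rw [Matrix.SpecialLinearGroup.coe_mul, transpose_mul, hQ]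
          calc (adjugate (P1 : M3 F)).transpose * (P0 : M3 F).transpose * S *
              ((P0 : M3 F) * adjugate (P1 : M3 F)) =
              (adjugate (P1 : M3 F)).transpose * ((P0 : M3 F).transpose * S * (P0 : M3 F)) *
                adjugate (P1 : M3 F) := by simp only [mul_assoc]
            _ = (adjugate (P1 : M3 F)).transpose * ((P1 : M3 F).transpose *
                (1 + vecMulVec c c) * (P1 : M3 F)) * adjugate (P1 : M3 F) := by rw [hP0, hP1]
            _ = ((P1 : M3 F) * adjugate (P1 : M3 F)).transpose * (1 + vecMulVec c c) *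
                ((P1 : M3 F) * adjugate (P1 : M3 F)) := by
                  rw [transpose_mul]; simp only [mul_assoc]
            _ = 1 + vecMulVec c c := by rw [e2, transpose_one, one_mul, mul_one]
        rwa [e] at h3
      have hc0 : c ≠ 0 := by
        intro h
        have := congrFun h 0
        rw [hc] at this
        simp at this
      have hz : El (cj P0 x * cj (P0 * P1⁻¹) x) c c := by
        refine ⟨hc0, hc0, hcc, ?_⟩
        have := h0.mul_outer' h1 (A' := 1) (by rw [mul_one])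
        rw [transpose_one, one_mul] at this
        simpa using this
      obtain ⟨P, hP⟩ := el_pl hEC2 h2 hsq hz hyP
      apply hP
      have hcc' : ∀ Q : SL3 F, cj P (cj Q x) = cj (Q * P) x := by
        intro Q
        simp only [cj, inn_mul]
        group
      rw [cj_mul, hcc', hcc', mul_assoc, hno, ← mul_assoc, hno, mul_assoc]

theorem enc_thm (hEAR : EARStmt) (hEINV : EINVStmt) (hEC1 : EC1Stmt) (hEC2 : EC2Stmt)
    (hENF : ENFStmt) : ENCStmt := by
  intro F _ _ hF x y hx hy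
  obtain ⟨P, hP⟩ := enc_cj hEINV hEC1 hEC2 hENF hF.1 (hEAR F hF).1 x y hx hy
  refine ⟨P⁻¹, ?_⟩
  have h1 : inn (P⁻¹ : SL3 F) = (inn P)⁻¹ := by
    rw [eq_inv_iff_mul_eq_one, ← inn_mul, inv_mul_cancel]
    rfl
  have e : inn (P⁻¹ : SL3 F) * x * (inn (P⁻¹ : SL3 F))⁻¹ = cj P x := by
    rw [h1, inv_inv]
    rfl
  rw [e]
  exact hP

end Pool.Agent.H38.SCG3
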