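import Pool.Agent.H24.SCG3.Stmts6
import Pool.Agent.H24.SCG2.Base3

/-! Project SCG3, row EYR: the relations of the generators. -/

namespace Pool.Agent.H38.SCG3

open Pool.SCG Matrix

variable {F : Type} [Field F]

/-- the matrix of `c` -/
def Mc (k : F) : M3 F := !![1 + k, 0, k; 0, 1, 0; k, 0, 1 + k]

/-- the matrix of `d` -/
def Md (F : Type) [Field F] : M3 F := !![0, 1, 0; 1, 0, 0; 0, 0, 1]

theorem Mc_det (h2 : (2 : F) = 0) (k : F) : (Mc k).det = 1 := by
  simp only [Mc, Matrix.det_fin_three, Matrix.of_apply, Matrix.cons_val', Matrix.cons_val_zero,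
    Matrix.cons_val_one, Matrix.cons_val, Matrix.cons_val_fin_one]
  linear_combination k * h2

theorem Md_det (h2 : (2 : F) = 0) : (Md F).det = 1 := by
  simp only [Md, Matrix.det_fin_three, Matrix.of_apply, Matrix.cons_val', Matrix.cons_val_zero,
    Matrix.cons_val_one, Matrix.cons_val, Matrix.cons_val_fin_one]
  linear_combination -h2

theorem Mc_tr (k : F) : (Mc k).transpose = Mc k := by
  ext i j
  fin_cases i <;> fin_cases j <;> simp [Mc]

theorem Md_tr : (Md F).transpose = Md F := by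
  ext i j
  fin_cases i <;> fin_cases j <;> simp [Md]

theorem Mc_sq (h2 : (2 : F) = 0) (k : F) : Mc k * Mc k = 1 := by
  simp only [Mc, Matrix.mul_fin_three]
  ext i j
  fin_cases i <;> fin_cases j <;> simp
  · linear_combination (k + k ^ 2) * h2
  · linear_combination (k + k ^ 2) * h2
  · linear_combination (k + k ^ 2) * h2
  · linear_combination (k + k ^ 2) * h2

theorem Md_sq : Md F * Md F = 1 := by
  simp only [Md, Matrix.mul_fin_three]
  ext i j
  fin_cases i <;> fin_cases j <;> simp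

theorem eyr_thm : EYRStmt := by
  intro F _ β h2 hβ h3
  have hβ1 : β ≠ 1 := by
    rintro rfl
    exact h3 (one_pow 3)
  obtain ⟨a, ha⟩ := exists_is true (dg (1 : F) 1 1) (by rw [dg_det]; ring)
  obtain ⟨b, hb⟩ := exists_is true (dg β β⁻¹ 1) (by rw [dg_det]; field_simp)
  obtain ⟨c, hc⟩ := exists_is true (Mc (β + β⁻¹)) (Mc_det h2 _)
  obtain ⟨d, hd⟩ := exists_is true (Md F) (Md_det h2)
  have ha1 : Is a true (1 : M3 F) := by rwa [dg_one] at ha
  have adj1 : adjugate (1 : M3 F) = 1 := Matrix.adjugate_one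
  refine ⟨a, b, c, d, ⟨ha, hb, hc, hd⟩, (is_one.ne_of_sign ha).symm, (is_one.ne_of_sign hb).symm,
    (is_one.ne_of_sign hc).symm, (is_one.ne_of_sign hd).symm, ?_, ?_, ?_, ?_, ?_, ?_, ?_, ?_, ?_,
    ?_⟩
  · exact (outer_sq_iff ha).2 (dg_transpose _ _ _)
  · exact (outer_sq_iff hb).2 (dg_transpose _ _ _)
  · exact (outer_sq_iff hc).2 (Mc_tr _)
  · exact (outer_sq_iff hd).2 Md_tr
  · rw [comm_outer_iff ha1 hc Matrix.transpose_one (Mc_tr _), adj1, mul_one, Mc_sq h2]
  · rw [comm_outer_iff ha1 hd Matrix.transpose_one Md_tr, adj1, mul_one, Md_sq]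
  · have hadj : adjugate (dg β β⁻¹ 1) = dg β⁻¹ β 1 := by
      apply adj_unique hb.det
      rw [dg_mul, mul_inv_cancel₀ hβ, inv_mul_cancel₀ hβ, mul_one, dg_one]
    rw [comm_outer_iff hb hd (dg_transpose _ _ _) Md_tr, hadj]
    simp only [Md, dg, Matrix.mul_fin_three]
    ext i j
    fin_cases i <;> fin_cases j <;> simp
  · refine ha.ne_of_mat hb ?_
    intro h
    exact hβ1 (dg_inj h).1.symm
  · refine hb.ne_of_mat hc ?_
    intro h
    have := congrFun (congrFun h 1) 1
    simp [dg, Mc] at this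
    exact hβ1 this
  · refine hc.ne_of_mat hd ?_
    intro h
    have := congrFun (congrFun h 1) 1
    simp [Mc, Md] at this

end Pool.Agent.H38.SCG3
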