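import Pool.Agent.H24.SCG3.Stmts6
import Pool.Agent.H24.SCG2.Base3
import Pool.Agent.H83.SCG2.GENT
import Pool.Agent.H38.SCG3.EYR

/-! Project SCG3, row EYG: the generators generate the group. -/

namespace Pool.Agent.H38.SCG3

open Pool.SCG Matrix

variable {F : Type} [Field F]

/-- `A` is the matrix of an inner element of `H` -/
def InC (H : Subgroup (Cor F)) (A : M3 F) : Prop := ∃ x ∈ H, Is x false A

theorem InC.mul {H : Subgroup (Cor F)} {A B : M3 F} (hA : InC H A) (hB : InC H B) :
    InC H (A * B) := by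
  obtain ⟨x, hx, hxA⟩ := hA
  obtain ⟨y, hy, hyB⟩ := hB
  exact ⟨x * y, H.mul_mem hx hy, hxA.mul_inner hyB⟩

theorem InC.one {H : Subgroup (Cor F)} : InC H (1 : M3 F) := ⟨1, H.one_mem, is_one⟩

theorem InC.it {H : Subgroup (Cor F)} {a : Cor F} (ha : a ∈ H) (hI : Is a true (1 : M3 F))
    {A B : M3 F} (hA : InC H A) (hAB : A * B = 1) : InC H B.transpose := by
  obtain ⟨x, hx, hxA⟩ := hA
  refine ⟨a * x * a, H.mul_mem (H.mul_mem ha hx) ha, ?_⟩
  have h1 : Is (a * x) true A := by
    have := hI.mul_inner hxA
    rwa [one_mul] at this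
  have h2 := h1.mul_outer' hI hAB
  rw [mul_one] at h2
  simpa using h2

/-- elementary matrices -/
def E02 (t : F) : M3 F := !![1, 0, t; 0, 1, 0; 0, 0, 1]
/-- elementary matrices -/
def E20 (t : F) : M3 F := !![1, 0, 0; 0, 1, 0; t, 0, 1]
/-- elementary matrices -/
def E12 (t : F) : M3 F := !![1, 0, 0; 0, 1, t; 0, 0, 1]
/-- elementary matrices -/
def E21 (t : F) : M3 F := !![1, 0, 0; 0, 1, 0; 0, t, 1]
/-- elementary matrices -/
def E01 (t : F) : M3 F := !![1, t, 0; 0, 1, 0; 0, 0, 1]
/-- elementary matrices -/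
def E10 (t : F) : M3 F := !![1, 0, 0; t, 1, 0; 0, 0, 1]

/-- conjugates of `Mc k` -/
def Mt (k t : F) : M3 F := !![1 + k, 0, t * k; 0, 1, 0; t⁻¹ * k, 0, 1 + k]

theorem Mt_eq (k t : F) (ht : t ≠ 0) : dg t t⁻¹ 1 * Mc k * dg t⁻¹ t⁻¹⁻¹ 1 = Mt k t := by
  simp only [dg, Mc, Mt, Matrix.mul_fin_three]
  ext i j
  fin_cases i <;> fin_cases j <;> simp <;> field_simp

theorem Mt_prod (h2 : (2 : F) = 0) (k : F) (hk : k ≠ 0) (hμ : 1 + k ≠ 0) :
    Mt k k * Mt k (1 + k) * Mt k k = E02 (k / (1 + k)) := by
  simp only [Mt, E02, Matrix.mul_fin_three]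
  ext i j
  fin_cases i <;> fin_cases j <;> simp <;> field_simp
  · linear_combination (2 * k + 3 * k ^ 2 + 2 * k ^ 3) * h2
  · linear_combination (3 * k + 6 * k ^ 2 + 5 * k ^ 3 + 2 * k ^ 4) * h2
  · linear_combination (1 + 3 * k + 2 * k ^ 2) * h2
  · linear_combination (2 * k + 3 * k ^ 2 + 2 * k ^ 3) * h2

theorem E02_conj (t x : F) (ht : t ≠ 0) :
    dg t t⁻¹ 1 * E02 x * dg t⁻¹ t⁻¹⁻¹ 1 = E02 (t * x) := by
  simp only [dg, E02, Matrix.mul_fin_three]
  ext i j
  fin_cases i <;> fin_cases j <;> simp <;> field_simp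

theorem eyg_thm : EYGStmt := by
  intro F _ β h2 hβ h3 hgen a b c d hG
  have hβ1 : β - 1 ≠ 0 := by
    intro h
    apply h3
    rw [sub_eq_zero.1 h, one_pow]
  have hq : 1 + β + β ^ 2 ≠ 0 := by
    intro h
    apply h3
    linear_combination (β - 1) * h
  set k : F := β + β⁻¹ with hk
  have hk0 : k ≠ 0 := by
    intro h
    have h1 : (β - 1) ^ 2 = 0 := by
      have : β * k = 0 := by rw [h, mul_zero]
      rw [hk] at this
      field_simp at this
      linear_combination this - β * h2
    exact hβ1 (pow_eq_zero_iff (by norm_num) |>.1 h1)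
  have hμ : 1 + k ≠ 0 := by
    intro h
    apply hq
    have : β * (1 + k) = 0 := by rw [h, mul_zero]
    rw [hk] at this
    field_simp at this
    linear_combination this
  set H := Subgroup.closure ({a, b, c, d} : Set (Cor F)) with hH
  have haH : a ∈ H := Subgroup.subset_closure (by simp)
  have hbH : b ∈ H := Subgroup.subset_closure (by simp)
  have hcH : c ∈ H := Subgroup.subset_closure (by simp)
  have hdH : d ∈ H := Subgroup.subset_closure (by simp)
  have ha1 : Is a true (1 : M3 F) := by
    have := hG.ha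
    rwa [dg_one] at this
  have hmul : ∀ {y : Cor F} {B : M3 F}, Is y true B → Is (a * y) false B := by
    intro y B hy
    have := ha1.mul_outer' hy (A' := 1) (by rw [mul_one])
    rw [transpose_one, one_mul] at this
    simpa using this
  have hT : ∀ t : F, t ≠ 0 → InC H (dg t t⁻¹ 1) := by
    intro t ht
    obtain ⟨n, hn⟩ := hgen t ht
    have h1 := (hmul hG.hb).pow_dg (3 * n)
    refine ⟨(a * b) ^ (3 * n), H.pow_mem (H.mul_mem haH hbH) _, ?_⟩
    have e : β ^ (3 * n) = t := by rw [pow_mul, hn]
    rw [inv_pow, e, one_pow] at h1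
    exact h1
  have hM : InC H (Mc k) := ⟨a * c, H.mul_mem haH hcH, hmul hG.hc⟩
  have hD : InC H (Md F) := ⟨a * d, H.mul_mem haH hdH, hmul hG.hd⟩
  have hMt : ∀ t : F, t ≠ 0 → InC H (Mt k t) := by
    intro t ht
    rw [← Mt_eq k t ht]
    exact ((hT t ht).mul hM).mul (hT t⁻¹ (inv_ne_zero ht))
  have h0 : InC H (E02 (k / (1 + k))) := by
    rw [← Mt_prod h2 k hk0 hμ]
    exact ((hMt k hk0).mul (hMt _ hμ)).mul (hMt k hk0)
  have h02 : ∀ x : F, InC H (E02 x) := by
    intro x
    by_cases hx : x = 0
    · subst hx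
      have : E02 (0 : F) = 1 := by
        ext i j
        fin_cases i <;> fin_cases j <;> simp [E02]
      rw [this]
      exact InC.one
    · have ht : x * (1 + k) / k ≠ 0 := div_ne_zero (mul_ne_zero hx hμ) hk0
      have h1 := ((hT _ ht).mul h0).mul (hT _ (inv_ne_zero ht))
      rw [E02_conj _ _ ht] at h1
      have e : x * (1 + k) / k * (k / (1 + k)) = x := by
        field_simp
      rwa [e] at h1
  have h20 : ∀ x : F, InC H (E20 x) := by
    intro x
    have e : E02 (-x) * E02 x = 1 := by
      simp only [E02, Matrix.mul_fin_three]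
      ext i j
      fin_cases i <;> fin_cases j <;> simp
    have h1 := (h02 (-x)).it haH ha1 e
    have e2 : (E02 x).transpose = E20 x := by
      ext i j
      fin_cases i <;> fin_cases j <;> simp [E02, E20]
    rwa [e2] at h1
  have h12 : ∀ x : F, InC H (E12 x) := by
    intro x
    have h1 := (hD.mul (h02 x)).mul hD
    have e : Md F * E02 x * Md F = E12 x := by
      simp only [Md, E02, E12, Matrix.mul_fin_three]
      ext i j
      fin_cases i <;> fin_cases j <;> simp
    rwa [e] at h1
  have h21 : ∀ x : F, InC H (E21 x) := by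
    intro x
    have h1 := (hD.mul (h20 x)).mul hD
    have e : Md F * E20 x * Md F = E21 x := by
      simp only [Md, E20, E21, Matrix.mul_fin_three]
      ext i j
      fin_cases i <;> fin_cases j <;> simp
    rwa [e] at h1
  have h01 : ∀ x : F, InC H (E01 x) := by
    intro x
    have h1 := (((h02 x).mul (h21 1)).mul (h02 (-x))).mul (h21 (-1))
    have e : E02 x * E21 1 * E02 (-x) * E21 (-1) = E01 x := by
      simp only [E02, E21, E01, Matrix.mul_fin_three]
      ext i j
      fin_cases i <;> fin_cases j <;> simp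
    rwa [e] at h1
  have h10 : ∀ x : F, InC H (E10 x) := by
    intro x
    have h1 := (((h12 x).mul (h20 1)).mul (h12 (-x))).mul (h20 (-1))
    have e : E12 x * E20 1 * E12 (-x) * E20 (-1) = E10 x := by
      simp only [E12, E20, E10, Matrix.mul_fin_three]
      ext i j
      fin_cases i <;> fin_cases j <;> simp
    rwa [e] at h1
  have htv : ∀ (i j : Fin 3), i ≠ j → ∀ t : F, InC H (transvection i j t) := by
    intro i j hij t
    fin_cases i <;> fin_cases j
    · exact absurd rfl hij
    · have e : transvection (0 : Fin 3) 1 t = E01 t := by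
        ext i j
        fin_cases i <;> fin_cases j <;> simp [transvection, E01]
      show InC H (transvection (0 : Fin 3) 1 t)
      rw [e]; exact h01 t
    · have e : transvection (0 : Fin 3) 2 t = E02 t := by
        ext i j
        fin_cases i <;> fin_cases j <;> simp [transvection, E02]
      show InC H (transvection (0 : Fin 3) 2 t)
      rw [e]; exact h02 t
    · have e : transvection (1 : Fin 3) 0 t = E10 t := by
        ext i j
        fin_cases i <;> fin_cases j <;> simp [transvection, E10]
      show InC H (transvection (1 : Fin 3) 0 t)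
      rw [e]; exact h10 t
    · exact absurd rfl hij
    · have e : transvection (1 : Fin 3) 2 t = E12 t := by
        ext i j
        fin_cases i <;> fin_cases j <;> simp [transvection, E12]
      show InC H (transvection (1 : Fin 3) 2 t)
      rw [e]; exact h12 t
    · have e : transvection (2 : Fin 3) 0 t = E20 t := by
        ext i j
        fin_cases i <;> fin_cases j <;> simp [transvection, E20]
      show InC H (transvection (2 : Fin 3) 0 t)
      rw [e]; exact h20 t
    · have e : transvection (2 : Fin 3) 1 t = E21 t := by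
        ext i j
        fin_cases i <;> fin_cases j <;> simp [transvection, E21]
      show InC H (transvection (2 : Fin 3) 1 t)
      rw [e]; exact h21 t
    · exact absurd rfl hij
  let inh : SL3 F →* Cor F :=
    { toFun := inn
      map_one' := rfl
      map_mul' := inn_mul }
  have htop : H.comap inh = ⊤ := by
    apply Pool.Agent.H83.SCG2.gen_top
    intro i j hij t
    obtain ⟨x, hx, hxA⟩ := htv i j hij t
    refine ⟨x.m, ?_, hxA.2⟩
    show inn x.m ∈ H
    have : inn x.m = x := Cor.ext rfl hxA.1.symm
    rwa [this]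
  have hinn : ∀ m : SL3 F, inn m ∈ H := by
    intro m
    have : m ∈ H.comap inh := by rw [htop]; trivial
    exact this
  rw [eq_top_iff]
  intro x _
  by_cases hx : x.s = false
  · have : inn x.m = x := Cor.ext rfl hx.symm
    rw [← this]
    exact hinn _
  · have hx' : x.s = true := by simpa using hx
    have h1 : (a * x).s = false := by
      rw [Cor.mul_s, ha1.1, hx']
      rfl
    have h2 : inn (a * x).m = a * x := Cor.ext rfl h1.symm
    have h3 : a * x ∈ H := by
      rw [← h2]
      exact hinn _
    have h4 : x = a⁻¹ * (a * x) := by group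
    rw [h4]
    exact H.mul_mem (H.inv_mem haH) h3

end Pool.Agent.H38.SCG3
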